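import Pool.Agent.N869.ZE.Stm
import Pool.Agent.N218.GB.KEY

/-! ZE-KEYA: the sum over the boxes, abstract version (after the files `N218/GB/KEY.lean` by helper218
and `N869/QT/KEYC.lean` by helper869). -/

set_option autoImplicit false

open scoped Classical

namespace Pool.Agent.N9.ZE.KEYA

open Finset
open Pool.Agent.Y703.CX (sm la jj XX)
open Pool.Agent.N916.GB (Po SA)
open Pool.Agent.N218.GB.KEY (le_XX cl_prime sm_la_card sm_la_prod card_sub TP mem_TP harm_TP)
open Pool.Agent.N869.ZE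

variable {Λ : Type}

/-- the class of a large prime -/
noncomputable def ph (lab : ℕ → Λ) (H p : ℕ) : ℕ × Λ := (jj H p, lab p)

/-- the key of a set -/
noncomputable def ky (lab : ℕ → Λ) (z H : ℕ) (S : Finset ℕ) : Finset ℕ × Finset (ℕ × Λ) :=
  (sm z S, (la z S).image (ph lab H))

/-- the numbers of the labels in terms of the key -/
noncomputable def cK (lab : ℕ → Λ) (S₀ : Finset ℕ) (J : Finset (ℕ × Λ)) (l : Λ) : ℕ :=
  cnt lab S₀ l + (J.filter fun e => e.2 = l).card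

/-- the keys which occur -/
structure KP (lab : ℕ → Λ) (P : (Λ → ℕ) → Prop) (X z H k : ℕ) (S₀ : Finset ℕ)
    (J : Finset (ℕ × Λ)) : Prop where
  cl : ∀ q ∈ S₀, Po q
  le : ∀ q ∈ S₀, q ≤ z
  inj : Set.InjOn Prod.fst (J : Set (ℕ × Λ))
  card : S₀.card + J.card ≤ k
  prod : (∏ p ∈ S₀, p) * ∏ e ∈ J, XX H e.1 ≤ X
  cnd : P (cK lab S₀ J)

theorem cnt_key {lab : ℕ → Λ} {z H : ℕ} {S : Finset ℕ}
    (hi : Set.InjOn (ph lab H) (la z S : Set ℕ)) :
    cnt lab S = cK lab (sm z S) ((la z S).image (ph lab H)) := by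
  funext l
  unfold cK cnt
  have h1 : (((la z S).image (ph lab H)).filter fun e => e.2 = l).card =
      ((la z S).filter fun p => lab p = l).card := by
    rw [Finset.filter_image, Finset.card_image_of_injOn]
    · rfl
    · intro a ha b hb hab
      exact hi (Finset.mem_coe.2 (Finset.mem_filter.1 (Finset.mem_coe.1 ha)).1)
        (Finset.mem_coe.2 (Finset.mem_filter.1 (Finset.mem_coe.1 hb)).1) hab
  rw [h1, ← Finset.card_union_of_disjoint]
  · congr 1
    rw [← Finset.filter_union]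
    congr 1
    unfold sm la
    exact (Finset.filter_union_filter_not_eq _ _).symm
  · rw [Finset.disjoint_left]
    intro p hp hp'
    have h2 := (Finset.mem_filter.1 (Finset.mem_filter.1 hp).1).2
    have h3 := (Finset.mem_filter.1 (Finset.mem_filter.1 hp').1).2
    exact h3 h2

theorem rr_iff {lab : ℕ → Λ} {P : (Λ → ℕ) → Prop} {X z H k : ℕ} (hH : 1 ≤ H) {S : Finset ℕ}
    (hS : ∀ q ∈ S, Po q) (hi : Set.InjOn (ph lab H) (la z S : Set ℕ)) :
    S ∈ RgA lab P X z H k ↔ KP lab P X z H k (ky lab z H S).1 (ky lab z H S).2 := by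
  have hcnt := cnt_key hi
  obtain ⟨J, hJ⟩ : ∃ J, J = (la z S).image (ph lab H) := ⟨_, rfl⟩
  have hky : ky lab z H S = (sm z S, J) := by rw [hJ]; rfl
  rw [hky]
  rw [← hJ] at hcnt
  have f2 : J.card = (la z S).card := by
    rw [hJ]
    exact Finset.card_image_of_injOn hi
  have f8 : ∏ e ∈ J, XX H e.1 = ∏ p ∈ la z S, XX H (jj H p) := by
    rw [hJ, Finset.prod_image hi]
    rfl
  have f9 : Set.InjOn (jj H) (la z S : Set ℕ) ↔ Set.InjOn Prod.fst (J : Set (ℕ × Λ)) := by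
    constructor
    · intro h a ha b hb hab
      rw [Finset.mem_coe, hJ, Finset.mem_image] at ha hb
      obtain ⟨p, hp, rfl⟩ := ha
      obtain ⟨q, hq, rfl⟩ := hb
      rw [h (Finset.mem_coe.2 hp) (Finset.mem_coe.2 hq) hab]
    · intro h p hp q hq hpq
      have e1 : ph lab H p ∈ J := by
        rw [hJ]
        exact Finset.mem_image_of_mem _ (Finset.mem_coe.1 hp)
      have e2 : ph lab H q ∈ J := by
        rw [hJ]
        exact Finset.mem_image_of_mem _ (Finset.mem_coe.1 hq)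
      exact hi hp hq (h (Finset.mem_coe.2 e1) (Finset.mem_coe.2 e2) hpq)
  have hsm : sm z S ⊆ S := Finset.filter_subset _ _
  have hla : la z S ⊆ S := Finset.filter_subset _ _
  unfold RgA
  rw [Finset.mem_filter]
  constructor
  · rintro ⟨h1, h2, h3, h4, h5⟩
    refine ⟨fun q hq => hS q (hsm hq), fun q hq => (Finset.mem_filter.1 hq).2,
      f9.1 h2, ?_, ?_, ?_⟩
    · rw [f2, sm_la_card]
      exact h3
    · rw [f8]
      exact h4
    · rw [← hcnt]
      exact h5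
  · rintro ⟨k1, k2, k7, k8, k9, k10⟩
    have hprod : ∏ p ∈ S, p ≤ X := by
      rw [← sm_la_prod z S]
      refine le_trans (Nat.mul_le_mul_left _ ?_) k9
      rw [f8]
      refine Finset.prod_le_prod' fun p hp => le_XX hH (cl_prime (hS p (hla hp))).one_le
    refine ⟨?_, f9.2 k7, ?_, ?_, ?_⟩
    · unfold SA
      rw [Finset.mem_filter, Finset.mem_powerset]
      refine ⟨?_, hS, hprod⟩
      intro q hq
      rw [Finset.mem_range]
      have h1 : q ∣ ∏ p ∈ S, p := Finset.dvd_prod_of_mem _ hq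
      have h2 : 0 < ∏ p ∈ S, p := Finset.prod_pos fun p hp => (cl_prime (hS p hp)).pos
      have := Nat.le_of_dvd h2 h1
      omega
    · rw [← sm_la_card z S, ← f2]
      exact k8
    · rw [← f8]
      exact k9
    · rw [hcnt]
      exact k10

/-- the primes of a block -/
noncomputable def CC (lab : ℕ → Λ) (z H : ℕ) (e : ℕ × Λ) : Finset ℕ :=
  (Icc 1 (XX H e.1)).filter fun p => Po p ∧ z < p ∧ ph lab H p = e

theorem mem_CC {lab : ℕ → Λ} {z H : ℕ} (hH : 1 ≤ H) {e : ℕ × Λ} {p : ℕ} :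
    p ∈ CC lab z H e ↔ Po p ∧ z < p ∧ ph lab H p = e := by
  unfold CC
  rw [Finset.mem_filter, Finset.mem_Icc]
  constructor
  · exact fun h => h.2
  · intro h
    refine ⟨⟨(cl_prime h.1).one_le, ?_⟩, h⟩
    have := le_XX hH (cl_prime h.1).one_le
    have h2 : jj H p = e.1 := congrArg Prod.fst h.2.2
    rw [h2] at this
    exact this

section fill
variable {lab : ℕ → Λ} {z H : ℕ} {S₀ : Finset ℕ} {J : Finset (ℕ × Λ)} {p : J → ℕ}

theorem sm_fill (hH : 1 ≤ H) (h₀ : ∀ q ∈ S₀, q ≤ z) (hp : ∀ i : J, p i ∈ CC lab z H i) :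
    sm z (S₀ ∪ univ.image p) = S₀ := by
  ext q
  unfold sm
  rw [Finset.mem_filter, Finset.mem_union, Finset.mem_image]
  constructor
  · rintro ⟨h | ⟨i, -, rfl⟩, h2⟩
    · exact h
    · have := ((mem_CC hH).1 (hp i)).2.1
      omega
  · exact fun h => ⟨Or.inl h, h₀ q h⟩

theorem la_fill (hH : 1 ≤ H) (h₀ : ∀ q ∈ S₀, q ≤ z) (hp : ∀ i : J, p i ∈ CC lab z H i) :
    la z (S₀ ∪ univ.image p) = univ.image p := by
  ext q
  unfold la
  rw [Finset.mem_filter, Finset.mem_union, Finset.mem_image]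
  constructor
  · rintro ⟨h | h, h2⟩
    · exact absurd (h₀ q h) h2
    · exact h
  · rintro ⟨i, -, rfl⟩
    have := ((mem_CC hH).1 (hp i)).2.1
    exact ⟨Or.inr ⟨i, Finset.mem_univ _, rfl⟩, by omega⟩

theorem ph_fill (hH : 1 ≤ H) (hp : ∀ i : J, p i ∈ CC lab z H i) (i : J) : ph lab H (p i) = i :=
  ((mem_CC hH).1 (hp i)).2.2

theorem im_fill (hH : 1 ≤ H) (hp : ∀ i : J, p i ∈ CC lab z H i) :
    (univ.image p).image (ph lab H) = J := by
  ext k
  rw [Finset.mem_image]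
  constructor
  · rintro ⟨q, hq, rfl⟩
    rw [Finset.mem_image] at hq
    obtain ⟨i, -, rfl⟩ := hq
    rw [ph_fill hH hp]
    exact i.2
  · intro hk
    exact ⟨p ⟨k, hk⟩, Finset.mem_image_of_mem _ (Finset.mem_univ _), ph_fill hH hp ⟨k, hk⟩⟩

theorem ky_fill (hH : 1 ≤ H) (h₀ : ∀ q ∈ S₀, q ≤ z) (hp : ∀ i : J, p i ∈ CC lab z H i) :
    ky lab z H (S₀ ∪ univ.image p) = (S₀, J) := by
  unfold ky
  rw [sm_fill hH h₀ hp, la_fill hH h₀ hp, im_fill hH hp]

theorem inj_fill (hH : 1 ≤ H) (h₀ : ∀ q ∈ S₀, q ≤ z) (hp : ∀ i : J, p i ∈ CC lab z H i) :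
    Set.InjOn (ph lab H) (la z (S₀ ∪ univ.image p) : Set ℕ) := by
  rw [la_fill hH h₀ hp]
  intro a ha b hb hab
  rw [Finset.mem_coe, Finset.mem_image] at ha hb
  obtain ⟨i, -, rfl⟩ := ha
  obtain ⟨j, -, rfl⟩ := hb
  rw [ph_fill hH hp, ph_fill hH hp] at hab
  rw [Subtype.ext hab]

theorem cnt_fill (hH : 1 ≤ H) (h₀ : ∀ q ∈ S₀, q ≤ z) (hp : ∀ i : J, p i ∈ CC lab z H i) :
    cnt lab (S₀ ∪ univ.image p) = cK lab S₀ J := by
  rw [cnt_key (inj_fill hH h₀ hp), sm_fill hH h₀ hp, la_fill hH h₀ hp, im_fill hH hp]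

end fill

theorem rr_facts {lab : ℕ → Λ} {P : (Λ → ℕ) → Prop} {X z H k : ℕ} {S : Finset ℕ}
    (hS : S ∈ RgA lab P X z H k) :
    (∀ q ∈ S, Po q) ∧ Set.InjOn (jj H) (la z S : Set ℕ) ∧ ∏ p ∈ S, p ≤ X := by
  unfold RgA SA at hS
  rw [Finset.mem_filter, Finset.mem_filter] at hS
  exact ⟨hS.1.2.1, hS.2.1, hS.1.2.2⟩

theorem inj_ph {lab : ℕ → Λ} {H : ℕ} {A : Set ℕ} (h : Set.InjOn (jj H) A) :
    Set.InjOn (ph lab H) A :=
  fun _ ha _ hb hab => h ha hb (congrArg Prod.fst hab)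

theorem key_bij {lab : ℕ → Λ} {P : (Λ → ℕ) → Prop} {X z H k : ℕ} (hH : 1 ≤ H) {S₀ : Finset ℕ}
    {J : Finset (ℕ × Λ)} (hkey : KP lab P X z H k S₀ J) (R : Finset ℕ → Prop) [DecidablePred R]
    [DecidableEq J] :
    ((Fintype.piFinset fun i : J => CC lab z H i).filter fun p => R (S₀ ∪ univ.image p)).card =
      ((RgA lab P X z H k).filter fun S => ky lab z H S = (S₀, J) ∧ R S).card := by
  have h₀ := hkey.le
  apply Finset.card_bij (fun (p : J → ℕ) _ => S₀ ∪ univ.image p)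
  · intro p hp
    rw [Finset.mem_filter, Fintype.mem_piFinset] at hp
    obtain ⟨hp, hP⟩ := hp
    have hk := ky_fill hH h₀ hp
    rw [Finset.mem_filter]
    refine ⟨?_, hk, hP⟩
    rw [rr_iff hH _ (inj_fill hH h₀ hp), hk]
    · exact hkey
    · intro q hq
      rw [Finset.mem_union, Finset.mem_image] at hq
      rcases hq with hq | ⟨i, -, rfl⟩
      · exact hkey.cl q hq
      · exact ((mem_CC hH).1 (hp i)).1
  · intro p hp p' hp' h
    rw [Finset.mem_filter, Fintype.mem_piFinset] at hp hp'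
    have h1 := la_fill hH h₀ hp.1
    rw [h, la_fill hH h₀ hp'.1] at h1
    funext i
    have h2 : p i ∈ univ.image p' := by
      rw [h1]
      exact Finset.mem_image_of_mem _ (Finset.mem_univ _)
    rw [Finset.mem_image] at h2
    obtain ⟨j, -, hj⟩ := h2
    have h3 := ph_fill hH hp.1 i
    have h4 := ph_fill hH hp'.1 j
    rw [hj, h3] at h4
    rw [← hj, Subtype.ext h4]
  · intro S hS
    rw [Finset.mem_filter] at hS
    obtain ⟨hSR, hSk, hSP⟩ := hS
    obtain ⟨hSO, hSI, -⟩ := rr_facts hSR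
    have hk1 : sm z S = S₀ := congrArg Prod.fst hSk
    have hk2 : (la z S).image (ph lab H) = J := congrArg Prod.snd hSk
    have hex : ∀ i : J, ∃ q ∈ la z S, ph lab H q = i := by
      rintro ⟨i, hi⟩
      rw [← hk2, Finset.mem_image] at hi
      exact hi
    choose p hp1 hp2 using hex
    have him : univ.image p = la z S := by
      ext q
      rw [Finset.mem_image]
      constructor
      · rintro ⟨i, -, rfl⟩
        exact hp1 i
      · intro hq
        have hjq : ph lab H q ∈ J := by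
          rw [← hk2]
          exact Finset.mem_image_of_mem _ hq
        exact ⟨⟨ph lab H q, hjq⟩, Finset.mem_univ _, inj_ph hSI (Finset.mem_coe.2 (hp1 _))
          (Finset.mem_coe.2 hq) (hp2 ⟨ph lab H q, hjq⟩)⟩
    have hSe : S₀ ∪ univ.image p = S := by
      rw [him, ← hk1]
      unfold sm la
      exact Finset.filter_union_filter_not_eq _ _
    refine ⟨p, ?_, hSe⟩
    rw [Finset.mem_filter, Fintype.mem_piFinset, hSe]
    refine ⟨fun i => (mem_CC hH).2 ⟨hSO _ (Finset.mem_filter.1 (hp1 i)).1,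
      not_le.1 (Finset.mem_filter.1 (hp1 i)).2, hp2 i⟩, hSP⟩

theorem CC_facts {lab : ℕ → Λ} {z H : ℕ} (hH : 1 ≤ H) {e : ℕ × Λ} {p : ℕ}
    (hp : p ∈ CC lab z H e) : Po p ∧ z < p ∧ p ≤ XX H e.1 ∧ lab p = e.2 := by
  obtain ⟨h1, h2, h3⟩ := (mem_CC hH).1 hp
  refine ⟨h1, h2, ?_, congrArg Prod.snd h3⟩
  unfold CC at hp
  exact (Finset.mem_Icc.1 (Finset.mem_filter.1 hp).1).2

theorem CC_disj {lab : ℕ → Λ} {z H : ℕ} (hH : 1 ≤ H) {J : Finset (ℕ × Λ)} (i l : J)
    (hil : i ≠ l) : Disjoint (CC lab z H i) (CC lab z H l) := by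
  rw [Finset.disjoint_left]
  intro p hp hp'
  have h5 := ((mem_CC hH).1 hp).2.2
  have h6 := ((mem_CC hH).1 hp').2.2
  exact hil (Subtype.ext (h5.symm.trans h6))

theorem box_dec {Pair : Finset ℕ → Finset ℕ → ℕ → ℕ → ℝ → Prop} {lab : ℕ → Λ}
    {P : (Λ → ℕ) → Prop} {N : Finset ℕ → Finset ℕ → Prop} {G : Finset ℕ → Prop} {g ε : ℝ} {B : ℕ}
    (hBOX : BoxA Pair lab P N G g ε B)
    (ι : Type) [Fintype ι] [inst : DecidableEq ι] (lo : LinearOrder ι) (τ : ι → Λ)
    (C : ι → Finset ℕ) (X : ι → ℕ) (κ : ℝ) (S₀ : Finset ℕ) (h1 : 0 ≤ κ)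
    (h2 : ∀ i, (C i).card ≤ X i) (h3 : ∀ i l, i ≠ l → Pair (C i) (C l) (X i) (X l) κ)
    (h4 : ∀ v ∈ S₀, Po v) (h5 : ∀ i, ∀ p ∈ C i, Po p ∧ p ∉ S₀ ∧ lab p = τ i)
    (h6 : ∀ i l, i ≠ l → Disjoint (C i) (C l))
    (h7 : ∀ p ∈ Fintype.piFinset C, P (cnt lab (S₀ ∪ univ.image p))) :
    |(((Fintype.piFinset C).filter fun p => N S₀ (univ.image p) ∧
        G (S₀ ∪ univ.image p)).card : ℝ) -
      g * (((Fintype.piFinset C).filter fun p => N S₀ (univ.image p)).card : ℝ)| ≤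
    ε * (((Fintype.piFinset C).filter fun p => N S₀ (univ.image p)).card : ℝ) +
    2 ^ (B * (S₀.card + Fintype.card ι + 1) ^ 2) * (κ * ∏ j, (X j : ℝ)) := by
  have e : inst = fun a b => lo.toDecidableEq a b := Subsingleton.elim _ _
  subst e
  exact hBOX ι τ C X κ S₀ h1 h2 h3 h4 h5 h6 h7

theorem per_key {Pair : Finset ℕ → Finset ℕ → ℕ → ℕ → ℝ → Prop} {C₁ : ℝ} (hBil : BilA Pair C₁)
    {lab : ℕ → Λ} {P : (Λ → ℕ) → Prop} {N : Finset ℕ → Finset ℕ → Prop} {G : Finset ℕ → Prop}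
    {g ε : ℝ} {B : ℕ} (hε : 0 ≤ ε) (hBOX : BoxA Pair lab P N G g ε B) {X z H k : ℕ}
    (hH : 1 ≤ H) (hz : 1 ≤ z) {κ : ℝ} (hκ : 0 ≤ κ) (hκz : C₁ ≤ κ ^ 24 * z) {S₀ : Finset ℕ}
    {J : Finset (ℕ × Λ)} (hk : KP lab P X z H k S₀ J) (hbig : ∀ e ∈ J, z ≤ XX H e.1) :
    |(((RgA lab P X z H k).filter fun S => ky lab z H S = (S₀, J) ∧
        (N (sm z S) (la z S) ∧ G S)).card : ℝ) -
      g * (((RgA lab P X z H k).filter fun S => ky lab z H S = (S₀, J) ∧
        N (sm z S) (la z S)).card : ℝ)| ≤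
    ε * (((RgA lab P X z H k).filter fun S => ky lab z H S = (S₀, J)).card : ℝ) +
      (2 ^ (B * (k + 1) ^ 2) * κ) * (X / ((∏ p ∈ S₀, p : ℕ) : ℝ)) := by
  have hinj : Function.Injective (fun i : J => i.1.1) := by
    intro a b hab
    exact Subtype.ext (hk.inj (Finset.mem_coe.2 a.2) (Finset.mem_coe.2 b.2) hab)
  let lo : LinearOrder J := LinearOrder.lift' (fun i : J => i.1.1) hinj
  have hbox := box_dec hBOX J lo (fun e => e.1.2) (fun i => CC lab z H i)
    (fun i => XX H i.1.1) κ S₀ hκ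
    (fun i => by
      refine (Finset.card_filter_le _ _).trans ?_
      rw [Nat.card_Icc]
      omega)
    (fun i l hil => hBil.2 _ _ _ _ z κ
      (fun p hp => by
        obtain ⟨h3, -, h4, h5⟩ := CC_facts hH hp
        exact ⟨h3, h4⟩)
      (fun p hp => by
        obtain ⟨h3, -, h4, h5⟩ := CC_facts hH hp
        exact ⟨h3, h4⟩)
      (CC_disj hH i l hil) hz (hbig i.1 i.2) (hbig l.1 l.2) hκ hκz)
    (fun u hu => hk.cl u hu)
    (fun i p hp => by
      obtain ⟨h3, h4, h5, h6⟩ := CC_facts hH hp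
      refine ⟨h3, fun h => ?_, h6⟩
      have := hk.le p h
      omega)
    (fun i l hil => CC_disj hH i l hil)
    (fun p hp => by
      rw [Fintype.mem_piFinset] at hp
      rw [cnt_fill hH hk.le hp]
      exact hk.cnd)
  have e1 : ((Fintype.piFinset fun i : J => CC lab z H i).filter fun p => N S₀ (univ.image p) ∧
      G (S₀ ∪ univ.image p)).card = ((RgA lab P X z H k).filter fun S =>
        ky lab z H S = (S₀, J) ∧ (N (sm z S) (la z S) ∧ G S)).card := by
    rw [← key_bij hH hk (fun S => N (sm z S) (la z S) ∧ G S)]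
    congr 1
    refine Finset.filter_congr fun p hp => ?_
    rw [Fintype.mem_piFinset] at hp
    rw [sm_fill hH hk.le hp, la_fill hH hk.le hp]
  have e2 : ((Fintype.piFinset fun i : J => CC lab z H i).filter fun p =>
      N S₀ (univ.image p)).card = ((RgA lab P X z H k).filter fun S =>
        ky lab z H S = (S₀, J) ∧ N (sm z S) (la z S)).card := by
    rw [← key_bij hH hk (fun S => N (sm z S) (la z S))]
    congr 1
    refine Finset.filter_congr fun p hp => ?_
    rw [Fintype.mem_piFinset] at hp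
    rw [sm_fill hH hk.le hp, la_fill hH hk.le hp]
  rw [e1, e2] at hbox
  refine hbox.trans (add_le_add ?_ ?_)
  · have h4 : (((RgA lab P X z H k).filter fun S => ky lab z H S = (S₀, J) ∧
        N (sm z S) (la z S)).card : ℝ) ≤
        (((RgA lab P X z H k).filter fun S => ky lab z H S = (S₀, J)).card : ℝ) := by
      have : (RgA lab P X z H k).filter (fun S => ky lab z H S = (S₀, J) ∧
          N (sm z S) (la z S)) ⊆
          (RgA lab P X z H k).filter fun S => ky lab z H S = (S₀, J) := by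
        intro S hS
        rw [Finset.mem_filter] at hS ⊢
        exact ⟨hS.1, hS.2.1⟩
      exact_mod_cast Finset.card_le_card this
    exact mul_le_mul_of_nonneg_left h4 hε
  · have hcJ : Fintype.card J = J.card := Fintype.card_coe J
    have hcard := hk.card
    have h5 : (2 : ℝ) ^ (B * (S₀.card + Fintype.card J + 1) ^ 2) ≤ 2 ^ (B * (k + 1) ^ 2) := by
      apply pow_le_pow_right₀ (by norm_num)
      rw [hcJ]
      exact Nat.mul_le_mul_left _ (Nat.pow_le_pow_left (by omega) 2)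
    have hN0 : (0 : ℝ) < ((∏ p ∈ S₀, p : ℕ) : ℝ) := by
      exact_mod_cast Finset.prod_pos fun p hp => (cl_prime (hk.cl p hp)).pos
    have hprod : ∏ j : J, (XX H j.1.1 : ℝ) ≤ X / ((∏ p ∈ S₀, p : ℕ) : ℝ) := by
      have h5 : ∏ j : J, (XX H j.1.1 : ℝ) = ((∏ k ∈ J, XX H k.1 : ℕ) : ℝ) := by
        rw [← Finset.prod_coe_sort J (fun k => XX H k.1)]
        push_cast
        rfl
      rw [h5, le_div_iff₀ hN0, mul_comm]
      exact_mod_cast hk.prod
    calc (2 : ℝ) ^ (B * (S₀.card + Fintype.card J + 1) ^ 2) *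
        (κ * ∏ j : J, (XX H j.1.1 : ℝ)) ≤
        2 ^ (B * (k + 1) ^ 2) * (κ * (X / ((∏ p ∈ S₀, p : ℕ) : ℝ))) := by gcongr
      _ = _ := by ring

/-- **ZE-KEYA.** -/
theorem t_KEYA : S_KEYA := by
  intro Λ _ Pair C₁ hBil
  have hΛ0 : (0 : ℝ) ≤ Fintype.card Λ := Nat.cast_nonneg _
  refine ⟨C₁ + (Fintype.card Λ + 1), by linarith [hBil.1], ?_⟩
  intro lab P N G g ε B hε hBOX X z H k M κ hX hH hz hκ hκz' hM
  have hκz : C₁ ≤ κ ^ 24 * z := by linarith
  set T := (RgA lab P X z H k).image (ky lab z H) with hT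
  obtain ⟨D, hD⟩ : ∃ D : ℝ, D = 2 ^ (B * (k + 1) ^ 2) * κ := ⟨_, rfl⟩
  have hD0 : 0 ≤ D := by rw [hD]; positivity
  have hfib : ∀ (R : Finset ℕ → Prop) [DecidablePred R],
      (((RgA lab P X z H k).filter fun S => R S).card : ℝ) =
      ∑ e ∈ T, (((RgA lab P X z H k).filter fun S => ky lab z H S = e ∧ R S).card : ℝ) := by
    intro R _
    rw [Finset.card_eq_sum_card_fiberwise (f := ky lab z H) (t := T) (by
      intro S hS
      rw [Finset.mem_coe, Finset.mem_filter] at hS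
      exact Finset.mem_coe.2 (Finset.mem_image_of_mem _ hS.1))]
    push_cast
    refine Finset.sum_congr rfl fun e _ => ?_
    congr 2
    ext S
    simp only [Finset.mem_filter]
    tauto
  have hKP : ∀ e ∈ T, KP lab P X z H k e.1 e.2 ∧ (∀ i ∈ e.2, z ≤ XX H i.1) ∧
      ∏ p ∈ e.1, p ≤ X ∧ ∀ i ∈ e.2, i.1 < M := by
    intro e he
    rw [hT, Finset.mem_image] at he
    obtain ⟨S, hS, rfl⟩ := he
    obtain ⟨f1, f2, f3⟩ := rr_facts hS
    refine ⟨(rr_iff hH f1 (inj_ph f2)).1 hS, ?_, ?_, ?_⟩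
    · intro i hi
      unfold ky at hi
      rw [Finset.mem_image] at hi
      obtain ⟨q, hq, rfl⟩ := hi
      have hq2 := Finset.mem_filter.1 hq
      have h1 := le_XX hH (cl_prime (f1 q hq2.1)).one_le
      have h2 := hq2.2
      show z ≤ XX H (jj H q)
      omega
    · refine le_trans ?_ f3
      exact Nat.le_of_dvd (Finset.prod_pos fun p hp => (cl_prime (f1 p hp)).pos)
        (Finset.prod_dvd_prod_of_subset _ _ _ (Finset.filter_subset _ _))
    · intro i hi
      unfold ky at hi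
      rw [Finset.mem_image] at hi
      obtain ⟨q, hq, rfl⟩ := hi
      have hqS := (Finset.mem_filter.1 hq).1
      have hq0 := (cl_prime (f1 q hqS)).pos
      have hqX : q ≤ X := by
        refine le_trans ?_ f3
        exact Nat.le_of_dvd (Finset.prod_pos fun p hp => (cl_prime (f1 p hp)).pos)
          (Finset.dvd_prod_of_mem _ hqS)
      have h3 : ((jj H q : ℕ) : ℝ) < M := by
        refine lt_of_le_of_lt (Nat.floor_le (mul_nonneg (Nat.cast_nonneg _)
          (Real.log_nonneg (by exact_mod_cast hq0)))) ?_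
        refine lt_of_le_of_lt ?_ hM
        refine mul_le_mul_of_nonneg_left ?_ (Nat.cast_nonneg _)
        exact Real.log_le_log (by exact_mod_cast hq0) (by exact_mod_cast hqX)
      exact_mod_cast h3
  have hf1 := hfib fun S => N (sm z S) (la z S) ∧ G S
  have hf2 := hfib fun S => N (sm z S) (la z S)
  have hf3 := hfib fun _ => True
  simp only [and_true, Finset.filter_true] at hf3
  rw [hf1, hf2, hf3, Finset.mul_sum, ← Finset.sum_sub_distrib]
  refine (Finset.abs_sum_le_sum_abs _ _).trans ?_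
  have h3 : ∀ e ∈ T, |(((RgA lab P X z H k).filter fun S => ky lab z H S = e ∧
        (N (sm z S) (la z S) ∧ G S)).card : ℝ) -
      g * (((RgA lab P X z H k).filter fun S => ky lab z H S = e ∧
        N (sm z S) (la z S)).card : ℝ)| ≤
      ε * (((RgA lab P X z H k).filter fun S => ky lab z H S = e).card : ℝ) +
      D * (X / ((∏ p ∈ e.1, p : ℕ) : ℝ)) := by
    intro e he
    obtain ⟨S₀, J⟩ := e
    obtain ⟨hk', hb', -, -⟩ := hKP _ he
    rw [hD]
    exact per_key hBil hε hBOX hH hz hκ hκz hk' hb'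
  refine (Finset.sum_le_sum h3).trans ?_
  rw [Finset.sum_add_distrib, ← Finset.mul_sum]
  refine add_le_add le_rfl ?_
  set U : Finset (ℕ × Λ) := range M ×ˢ univ with hU
  have hsub : T ⊆ (TP X) ×ˢ (U.powerset.filter fun J => J.card ≤ k) := by
    intro e he
    obtain ⟨hk', -, hp', hM'⟩ := hKP e he
    rw [Finset.mem_product, Finset.mem_filter, Finset.mem_powerset]
    refine ⟨mem_TP (fun q hq => cl_prime (hk'.cl q hq)) hp', ?_, ?_⟩
    · intro i hi
      rw [hU, Finset.mem_product, Finset.mem_range]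
      exact ⟨hM' i hi, Finset.mem_univ _⟩
    · have := hk'.card
      omega
  refine (Finset.sum_le_sum_of_subset_of_nonneg hsub fun _ _ _ => by positivity).trans ?_
  rw [Finset.sum_product]
  simp only [Finset.sum_const, nsmul_eq_mul]
  rw [← Finset.mul_sum, ← hD]
  have h4 : (((U.powerset.filter fun J => J.card ≤ k).card : ℕ) : ℝ) ≤
      ((C₁ + (Fintype.card Λ + 1)) * (M + 1) : ℝ) ^ k := by
    have h5 := card_sub U k
    rw [hU, Finset.card_product, Finset.card_range, Finset.card_univ, ← hU] at h5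
    calc (((U.powerset.filter fun J => J.card ≤ k).card : ℕ) : ℝ) ≤
          (((M * Fintype.card Λ + 1) ^ k : ℕ) : ℝ) := by exact_mod_cast h5
      _ = (M * Fintype.card Λ + 1 : ℝ) ^ k := by push_cast; ring
      _ ≤ _ := by
        apply pow_le_pow_left₀ (by positivity)
        have h6 : (0 : ℝ) ≤ M := Nat.cast_nonneg _
        have h7 := hBil.1
        nlinarith [mul_nonneg h6 hΛ0, mul_nonneg h6 (by linarith : (0 : ℝ) ≤ C₁)]
  have h5 : ∑ S ∈ TP X, D * (X / ((∏ p ∈ S, p : ℕ) : ℝ)) ≤ D * (X * (1 + Real.log X)) := by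
    have h6 : ∀ S ∈ TP X, D * ((X : ℝ) / ((∏ p ∈ S, p : ℕ) : ℝ)) =
        D * X * (1 / ((∏ p ∈ S, p : ℕ) : ℝ)) := by
      intro S _
      ring
    rw [Finset.sum_congr rfl h6, ← Finset.mul_sum]
    have h7 := mul_le_mul_of_nonneg_left (harm_TP X) (mul_nonneg hD0 (Nat.cast_nonneg X))
    refine h7.trans (le_of_eq ?_)
    ring
  have h6 : 0 ≤ ∑ S ∈ TP X, D * ((X : ℝ) / ((∏ p ∈ S, p : ℕ) : ℝ)) :=
    Finset.sum_nonneg fun _ _ => by positivity
  rw [mul_assoc]
  have h7 : (0 : ℝ) ≤ ((C₁ + (Fintype.card Λ + 1)) * (M + 1) : ℝ) ^ k :=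
    (Nat.cast_nonneg _).trans h4
  exact mul_le_mul h4 h5 h6 h7

end Pool.Agent.N9.ZE.KEYA
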